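import Mathlib

set_option autoImplicit false
set_option linter.unnecessarySeqFocus false

namespace Pool.Agent.H.MP_84cbe7_co

open Finset

def om (a b : Fin 2 → ℂ) : ℂ := a 0 * b 1 - a 1 * b 0

noncomputable def ff (k : ℕ) : Fin 2 → ℂ :=
  if k % 3 = 0 then ![⟨1/2, 1/2⟩, ⟨1/2, 1/2⟩]
  else if k % 3 = 1 then ![⟨1/2, 1/2⟩, ⟨-1/2, 1/2⟩] else ![1, 0]

noncomputable def bb (k : ℕ) : Fin 2 → ℂ :=
  if k % 3 = 0 then ![⟨1/2, 1/2⟩, ⟨-1/2, -1/2⟩]
  else if k % 3 = 1 then ![⟨1/2, 1/2⟩, ⟨1/2, -1/2⟩] else ![0, 1]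

noncomputable def w (e : ℕ) (a c : Bool) : ℂ :=
  om (if a then bb (e + 2) else ff e) (if c then ff (e + 1) else bb e)

noncomputable def Z : ℕ → ℕ → Bool → ℂ
  | 0, e, a => w e a false
  | k + 1, e, a => w e a true * Z k (e + 1) true + w e a false * Z k (e + 1) false

theorem Z_succ (k e : ℕ) (a : Bool) :
    Z (k + 1) e a = w e a true * Z k (e + 1) true + w e a false * Z k (e + 1) false := rfl

def ext {k : ℕ} (a : Bool) (s : Fin k → Bool) : ℕ → Bool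
  | 0 => a
  | i + 1 => if h : i < k then s ⟨i, h⟩ else false

theorem ext_cons {k : ℕ} (a c : Bool) (s : Fin k → Bool) (i : ℕ) :
    ext a (Fin.cons c s : Fin (k + 1) → Bool) (i + 1) = ext c s i := by
  cases i with
  | zero => simp [ext]
  | succ i =>
    simp only [ext, Nat.add_lt_add_iff_right]
    split_ifs with h
    · rfl
    · rfl

theorem sum_eq_Z (k : ℕ) : ∀ (e : ℕ) (a : Bool),
    ∑ s : Fin k → Bool, ∏ i ∈ range (k + 1), w (e + i) (ext a s i) (ext a s (i + 1)) =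
      Z k e a := by
  induction k with
  | zero => intro e a; simp [Z, ext]
  | succ k ih =>
    intro e a
    have hc : ∀ (c : Bool) (s : Fin k → Bool),
        (Fin.consEquiv (fun _ : Fin (k + 1) => Bool)) (c, s) = Fin.cons c s := fun _ _ => rfl
    rw [← (Fin.consEquiv (fun _ : Fin (k + 1) => Bool)).sum_comp, Fintype.sum_prod_type,
      Fintype.sum_bool, Z_succ, ← ih, ← ih, Finset.mul_sum, Finset.mul_sum]
    congr 1 <;>
    · apply Finset.sum_congr rfl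
      intro s _
      rw [Finset.prod_range_succ', mul_comm]
      simp only [hc, ext_cons]
      congr 1
      apply Finset.prod_congr rfl
      intro i _
      congr 1
      omega

theorem z0 : Z 0 16 false = (⟨1/1, 0/1⟩ : ℂ) ∧ Z 0 16 true = (⟨1/2, 1/2⟩ : ℂ) := by
  constructor <;> (simp [Z, w, om, ff, bb, Complex.ext_iff] <;> norm_num)

theorem z1 : Z 1 15 false = (⟨0/1, -3/2⟩ : ℂ) ∧ Z 1 15 true = (⟨-1/2, -1/1⟩ : ℂ) := by
  constructor <;> (rw [Z_succ, z0.1, z0.2]; simp [w, om, ff, bb, Complex.ext_iff] <;> norm_num)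

theorem z2 : Z 2 14 false = (⟨1/4, -9/4⟩ : ℂ) ∧ Z 2 14 true = (⟨3/2, -1/2⟩ : ℂ) := by
  constructor <;> (rw [Z_succ, z1.1, z1.2]; simp [w, om, ff, bb, Complex.ext_iff] <;> norm_num)

theorem z3 : Z 3 13 false = (⟨3/4, -13/4⟩ : ℂ) ∧ Z 3 13 true = (⟨9/4, -1/2⟩ : ℂ) := by
  constructor <;> (rw [Z_succ, z2.1, z2.2]; simp [w, om, ff, bb, Complex.ext_iff] <;> norm_num)

theorem z4 : Z 4 12 false = (⟨-37/8, -13/8⟩ : ℂ) ∧ Z 4 12 true = (⟨-27/8, 3/8⟩ : ℂ) := by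
  constructor <;> (rw [Z_succ, z3.1, z3.2]; simp [w, om, ff, bb, Complex.ext_iff] <;> norm_num)

theorem z5 : Z 5 11 false = (⟨-13/2, -25/8⟩ : ℂ) ∧ Z 5 11 true = (⟨0/1, -5/1⟩ : ℂ) := by
  constructor <;> (rw [Z_succ, z4.1, z4.2]; simp [w, om, ff, bb, Complex.ext_iff] <;> norm_num)

theorem z6 : Z 6 10 false = (⟨-9/1, -45/8⟩ : ℂ) ∧ Z 6 10 true = (⟨13/16, -117/16⟩ : ℂ) := by
  constructor <;> (rw [Z_succ, z5.1, z5.2]; simp [w, om, ff, bb, Complex.ext_iff] <;> norm_num)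

theorem z7 : Z 7 9 false = (⟨-155/16, 49/4⟩ : ℂ) ∧ Z 7 9 true = (⟨-19/8, 169/16⟩ : ℂ) := by
  constructor <;> (rw [Z_succ, z6.1, z6.2]; simp [w, om, ff, bb, Complex.ext_iff] <;> norm_num)

theorem z8 : Z 8 8 false = (⟨-517/32, 523/32⟩ : ℂ) ∧ Z 8 8 true = (⟨-241/16, -83/16⟩ : ℂ) := by
  constructor <;> (rw [Z_succ, z7.1, z7.2]; simp [w, om, ff, bb, Complex.ext_iff] <;> norm_num)

theorem z9 : Z 9 7 false = (⟨-841/32, 681/32⟩ : ℂ) ∧ Z 9 7 true = (⟨-339/16, -321/32⟩ : ℂ) := by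
  constructor <;> (rw [Z_succ, z8.1, z8.2]; simp [w, om, ff, bb, Complex.ext_iff] <;> norm_num)

theorem z10 : Z 10 6 false = (⟨1719/64, 2681/64⟩ : ℂ) ∧ Z 10 6 true = (⟨1879/64, 1159/64⟩ : ℂ) := by
  constructor <;> (rw [Z_succ, z9.1, z9.2]; simp [w, om, ff, bb, Complex.ext_iff] <;> norm_num)

theorem z11 : Z 11 5 false = (⟨2079/64, 525/8⟩ : ℂ) ∧ Z 11 5 true = (⟨-125/4, 40/1⟩ : ℂ) := by
  constructor <;> (rw [Z_succ, z10.1, z10.2]; simp [w, om, ff, bb, Complex.ext_iff] <;> norm_num)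

theorem z12 : Z 12 4 false = (⟨2359/64, 405/4⟩ : ℂ) ∧ Z 12 4 true = (⟨-6681/128, 6839/128⟩ : ℂ) := by
  constructor <;> (rw [Z_succ, z11.1, z11.2]; simp [w, om, ff, bb, Complex.ext_iff] <;> norm_num)

theorem z13 : Z 13 3 false = (⟨2465/16, -4797/128⟩ : ℂ) ∧ Z 13 3 true = (⟨10881/128, -4459/64⟩ : ℂ) := by
  constructor <;> (rw [Z_succ, z12.1, z12.2]; simp [w, om, ff, bb, Complex.ext_iff] <;> norm_num)

theorem z14 : Z 14 2 false = (⟨59239/256, -7631/256⟩ : ℂ) ∧ Z 14 2 true = (⟨11277/128, 17361/128⟩ : ℂ) := by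
  constructor <;> (rw [Z_succ, z13.1, z13.2]; simp [w, om, ff, bb, Complex.ext_iff] <;> norm_num)

theorem z15 : Z 15 1 false = (⟨87877/256, -1547/256⟩ : ℂ) ∧ Z 15 1 true = (⟨27351/256, 27221/128⟩ : ℂ) := by
  constructor <;> (rw [Z_succ, z14.1, z14.2]; simp [w, om, ff, bb, Complex.ext_iff] <;> norm_num)

theorem z16 : Z 16 0 false = (⟨23997/512, -257547/512⟩ : ℂ) ∧ Z 16 0 true = (⟨-62333/512, -168123/512⟩ : ℂ) := by
  constructor <;> (rw [Z_succ, z15.1, z15.2]; simp [w, om, ff, bb, Complex.ext_iff] <;> norm_num)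

theorem den : ∏ i ∈ range 17, w i false false = (⟨-1/1, 0/1⟩ : ℂ) := by
  simp [Finset.prod_range_succ, w, om, ff, bb, Complex.ext_iff]
  norm_num

theorem ratio : (Z 16 0 false / ∏ i ∈ range 17, w i false false).re < 1 := by
  rw [z16.1, den]
  simp [Complex.div_re, Complex.normSq_apply]
  norm_num

end Pool.Agent.H.MP_84cbe7_co
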