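import Mathlib
import Pool.Agent.H.MP_84cbe7_co.Num

set_option autoImplicit false

namespace Pool.Agent.H.MP_84cbe7_co

open Finset SimpleGraph

abbrev T : SimpleGraph (Fin 18) := pathGraph 18

instance : DecidableRel T.Adj := fun _ _ => decidable_of_iff _ pathGraph_adj.symm

theorem dart_adj (d : T.Dart) : d.fst.val + 1 = d.snd.val ∨ d.snd.val + 1 = d.fst.val :=
  pathGraph_adj.1 d.adj

theorem dart_ext {d d' : T.Dart} (h1 : d.fst.val = d'.fst.val) (h2 : d.snd.val = d'.snd.val) :
    d = d' := Dart.ext _ _ (Prod.ext (Fin.ext h1) (Fin.ext h2))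

theorem T_tree : T.IsTree := by
  rw [isTree_iff_connected_and_card]
  refine ⟨pathGraph_connected 17, ?_⟩
  rw [Nat.card_eq_fintype_card, Nat.card_eq_fintype_card, ← edgeFinset_card]
  have := T.sum_degrees_eq_twice_card_edges
  have h : ∑ v, T.degree v = 34 := by decide +kernel
  simp only [Fintype.card_fin]
  omega

theorem ext_true {s : Fin 16 → Bool} {v : ℕ} (h : ext false s v = true) : 1 ≤ v ∧ v ≤ 16 := by
  cases v with
  | zero => simp [ext] at h
  | succ i =>
    simp only [ext] at h
    split_ifs at h with h'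
    omega

def sw (s : Fin 16 → Bool) (d : T.Dart) : T.Dart :=
  if h : ext false s d.fst.val = true then
    ⟨(d.fst, ⟨2 * d.fst.val - d.snd.val, by
      have := ext_true h
      have := dart_adj d
      omega⟩), pathGraph_adj.2 (by
      have := ext_true h
      have := dart_adj d
      simp only
      omega)⟩
  else d

theorem sw_fst (s : Fin 16 → Bool) (d : T.Dart) : (sw s d).fst = d.fst := by
  unfold sw
  split_ifs <;> rfl

theorem sw_snd (s : Fin 16 → Bool) (d : T.Dart) : (sw s d).snd.val =
    if ext false s d.fst.val = true then 2 * d.fst.val - d.snd.val else d.snd.val := by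
  unfold sw
  split_ifs <;> rfl

theorem sw_inv (s : Fin 16 → Bool) : Function.Involutive (sw s) := by
  intro d
  apply dart_ext
  · rw [sw_fst, sw_fst]
  · rw [sw_snd, sw_fst, sw_snd]
    split_ifs with h
    · have := ext_true h
      have := dart_adj d
      omega
    · rfl

def up (e : Fin 17) : T.Dart :=
  ⟨(⟨e.val, by omega⟩, ⟨e.val + 1, by omega⟩), pathGraph_adj.2 (Or.inl rfl)⟩

def code (σ : Equiv.Perm T.Dart) (i : Fin 16) : Bool :=
  decide ((σ (up i.succ)).snd.val = i.val)

theorem code_sw (s : Fin 16 → Bool) : code (sw_inv s).toPerm = s := by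
  funext i
  have h : ext false s (i.val + 1) = s i := by simp [ext]
  unfold code
  rw [Function.Involutive.coe_toPerm, sw_snd]
  simp only [up, Fin.val_succ, h]
  cases s i
  · simp
    omega
  · simp
    omega

theorem sw_code (σ : Equiv.Perm T.Dart) (hσ : ∀ d, (σ d).fst = d.fst) :
    (sw_inv (code σ)).toPerm = σ := by
  ext1 d
  rw [Function.Involutive.coe_toPerm]
  apply dart_ext
  · rw [sw_fst, hσ]
  · rw [sw_snd]
    have a1 := dart_adj d
    have a2 := dart_adj (σ d)
    rw [hσ] at a2
    have b1 := d.fst.isLt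
    have b2 := d.snd.isLt
    have b3 := (σ d).snd.isLt
    by_cases hv : 1 ≤ d.fst.val ∧ d.fst.val ≤ 16
    · obtain ⟨i, hi⟩ : ∃ i : Fin 16, d.fst.val = i.val + 1 :=
        ⟨⟨d.fst.val - 1, by omega⟩, by simp only; omega⟩
      have h : ext false (code σ) (i.val + 1) = code σ i := by simp [ext]
      rw [hi, h]
      have c1 := dart_adj (σ (up i.succ))
      rw [hσ] at c1
      have u1 : (up i.succ).fst.val = i.val + 1 := rfl
      have u2 : (up i.succ).snd.val = i.val + 2 := rfl
      have inj : (σ d).snd.val = (σ (up i.succ)).snd.val ↔ d.snd.val = i.val + 2 := by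
        constructor
        · intro e
          have : σ d = σ (up i.succ) := dart_ext (by rw [hσ, hσ, hi, u1]) e
          rw [σ.injective this, u2]
        · intro e
          have : d = up i.succ := dart_ext (by rw [hi, u1]) (by rw [e, u2])
          rw [this]
      simp only [code, decide_eq_true_eq]
      split_ifs <;> omega
    · have : ¬ ext false (code σ) d.fst.val = true := fun h => hv (ext_true h)
      rw [if_neg this]
      omega

noncomputable def psi (d : T.Dart) : Fin 2 → ℂ :=
  if d.fst.val + 1 = d.snd.val then ff d.fst.val else bb d.snd.val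

def Del : Finset T.Dart := univ.filter (fun d => d.fst < d.snd)

theorem prod_Del (F : T.Dart → ℂ) : ∏ d ∈ Del, F d = ∏ e : Fin 17, F (up e) := by
  symm
  apply Finset.prod_bij (fun e _ => up e)
  · intro e _
    simp [Del, up]
  · intro a _ b _ h
    have : (up a).fst.val = (up b).fst.val := by rw [h]
    exact Fin.ext this
  · intro d hd
    have h1 : d.fst.val < d.snd.val := (Finset.mem_filter.1 hd).2
    have h2 := dart_adj d
    have h3 := d.snd.isLt
    refine ⟨⟨d.fst.val, by omega⟩, Finset.mem_univ _, dart_ext rfl ?_⟩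
    simp only [up]
    omega
  · intro e _
    rfl

theorem bb_mod (k : ℕ) : bb (k + 3) = bb k := by
  simp [bb]

theorem term (s : Fin 16 → Bool) (e : Fin 17) :
    om (psi (sw s (up e))) (psi (sw s (up e).symm)) =
      w (0 + e.val) (ext false s e.val) (ext false s (e.val + 1)) := by
  have u1 : (up e).fst.val = e.val := rfl
  have u2 : (up e).snd.val = e.val + 1 := rfl
  have u3 : (up e).symm.fst.val = e.val + 1 := rfl
  have u4 : (up e).symm.snd.val = e.val := rfl
  unfold w psi
  rw [sw_fst, sw_fst, sw_snd, sw_snd, u1, u2, u3, u4, zero_add]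
  congr 1
  · cases h : ext false s e.val
    · simp
    · have := ext_true h
      simp only [if_true]
      rw [if_neg (by omega), ← bb_mod]
      congr 1
      omega
  · cases h : ext false s (e.val + 1)
    · simp only [Bool.false_eq_true, if_false]
      rw [if_neg (by omega)]
    · simp only [if_true]
      rw [if_pos (by omega)]

theorem num_eq : ∑ σ ∈ univ.filter (fun σ : Equiv.Perm T.Dart => ∀ d, (σ d).fst = d.fst),
    ∏ d ∈ Del, om (psi (σ d)) (psi (σ d.symm)) = Z 16 0 false := by
  rw [← sum_eq_Z]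
  symm
  refine Finset.sum_bij' (fun s _ => (sw_inv s).toPerm) (fun σ _ => code σ) ?_ ?_ ?_ ?_ ?_
  · intro s _
    simp only [Finset.mem_filter, Finset.mem_univ, true_and]
    exact sw_fst s
  · simp
  · intro s _
    exact code_sw s
  · intro σ hσ
    exact sw_code σ (Finset.mem_filter.1 hσ).2
  · intro s _
    rw [prod_Del, Finset.prod_range]
    apply Finset.prod_congr rfl
    intro e _
    exact (term s e).symm

theorem den_eq : ∏ d ∈ Del, om (psi d) (psi d.symm) = ∏ i ∈ range 17, w i false false := by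
  rw [prod_Del, Finset.prod_range]
  apply Finset.prod_congr rfl
  intro e _
  have u1 : (up e).fst.val = e.val := rfl
  have u2 : (up e).snd.val = e.val + 1 := rfl
  have u3 : (up e).symm.fst.val = e.val + 1 := rfl
  have u4 : (up e).symm.snd.val = e.val := rfl
  unfold w psi
  rw [u1, u2, u3, u4, if_pos rfl, if_neg (by omega)]
  simp

noncomputable def pos (i : ℕ) : EuclideanSpace ℝ (Fin 3) :=
  !₂[(((i + 2) / 3 : ℕ) : ℝ), (((i + 1) / 3 : ℕ) : ℝ), ((i / 3 : ℕ) : ℝ)]

theorem pos_step (i : ℕ) : pos (i + 1) - pos i =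
    if i % 3 = 0 then !₂[1, 0, 0] else if i % 3 = 1 then !₂[0, 1, 0] else !₂[0, 0, 1] := by
  obtain ⟨q, rfl | rfl | rfl⟩ : ∃ q, i = 3 * q ∨ i = 3 * q + 1 ∨ i = 3 * q + 2 :=
    ⟨i / 3, by omega⟩
  · have e0 : 3 * q % 3 = 0 := by omega
    have e1 : (3 * q + 1 + 2) / 3 = q + 1 := by omega
    have e2 : (3 * q + 1 + 1) / 3 = q := by omega
    have e3 : (3 * q + 1) / 3 = q := by omega
    have e4 : (3 * q + 2) / 3 = q := by omega
    have e5 : (3 * q) / 3 = q := by omega
    rw [if_pos e0]
    ext k
    fin_cases k <;> simp [pos, e1, e2, e3, e4, e5]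
  · have e0 : (3 * q + 1) % 3 = 1 := by omega
    have e1 : (3 * q + 1 + 1 + 2) / 3 = q + 1 := by omega
    have e2 : (3 * q + 1 + 1 + 1) / 3 = q + 1 := by omega
    have e3 : (3 * q + 1 + 1) / 3 = q := by omega
    have e4 : (3 * q + 1 + 2) / 3 = q + 1 := by omega
    have e5 : (3 * q + 1) / 3 = q := by omega
    rw [if_neg (by omega), if_pos e0]
    ext k
    fin_cases k <;> simp [pos, e1, e2, e3, e4, e5]
  · have e1 : (3 * q + 2 + 1 + 2) / 3 = q + 1 := by omega
    have e2 : (3 * q + 2 + 1 + 1) / 3 = q + 1 := by omega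
    have e3 : (3 * q + 2 + 1) / 3 = q + 1 := by omega
    have e4 : (3 * q + 2 + 2) / 3 = q + 1 := by omega
    have e5 : (3 * q + 2) / 3 = q := by omega
    rw [if_neg (by omega), if_neg (by omega)]
    ext k
    fin_cases k <;> simp [pos, e1, e2, e3, e4, e5]

theorem pos_norm (i : ℕ) : ‖pos (i + 1) - pos i‖ = 1 := by
  rw [pos_step]
  split_ifs <;> simp [EuclideanSpace.norm_eq, Fin.sum_univ_three]

end Pool.Agent.H.MP_84cbe7_co
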